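import Pool.Agent.Run7.h188.FW.Stm

/-! # Stresses over the rationals vanish -/

set_option autoImplicit false

namespace Pool.Agent.Run7.h188.FW

open Finset Polynomial

/-- `S_STR` for all small `n` -/
def S_STR' : Prop := ∀ (q d n : ℕ) (e : ℕ → ℕ) (w : ℕ → ℕ → ℚ), Exps d e → q.Prime → 2 < q →
  e (d + 1) < q → n + d * (d + 1) / 2 ≤ ∑ k ∈ range (d + 2), e k →
  (∀ k j, n ≤ j + e (k + 1) → w k j = 0) →
  (∀ j < n, ∀ i, 1 ≤ i → i ≤ d → ∑ k ∈ range (d + 1),
    (w k j * (nod ℚ q i ^ j - nod ℚ q i ^ (j + e (k + 1))) +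
      (if e (k + 1) ≤ j then w k (j - e (k + 1)) *
        (nod ℚ q i ^ j - nod ℚ q i ^ (j - e (k + 1))) else 0)) = 0) →
  ∀ k ≤ d, ∀ j, w k j = 0

theorem t_STR' (hALG : S_ALG) : S_STR' := by
  intro q d n e w hE hq h2 he hn hw heq
  set V : ℕ → ℚ[X] := fun k => ∑ j ∈ range n, C (w k j) * X ^ j with hV
  have hVc : ∀ k j, (V k).coeff j = w k j := by
    intro k j
    simp only [hV, Polynomial.finsetSum_coeff, Polynomial.coeff_C_mul_X_pow]
    by_cases hj : j < n
    · rw [Finset.sum_eq_single j]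
      · simp
      · intro b _ hb
        rw [if_neg (fun h => hb h.symm)]
      · intro h
        exact absurd (Finset.mem_range.2 hj) h
    · rw [hw k j (by omega)]
      apply Finset.sum_eq_zero
      intro b hb
      rw [Finset.mem_range] at hb
      rw [if_neg (by omega)]
  set W : Fin (d + 2) → ℚ[X] := Fin.cons
    (- C (1 / 2 : ℚ) * ∑ k ∈ range (d + 1), (1 + X ^ (e (k + 1))) * V k)
    (fun k : Fin (d + 1) => V k) with hW
  have hq0 : (q : ℚ) ≠ 0 := by exact_mod_cast hq.ne_zero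
  have hnod : ∀ i, nod ℚ q i ≠ 0 := fun i => pow_ne_zero _ hq0
  have hrow : ∀ i : Fin (d + 1), ∑ k : Fin (d + 2), row (nod ℚ q) i (e k) * W k = 0 := by
    intro i
    rw [Fin.sum_univ_succ]
    have h1 : W 0 = - C (1 / 2 : ℚ) * ∑ k ∈ range (d + 1), (1 + X ^ (e (k + 1))) * V k := by
      rw [hW]; rfl
    have h3 : ∀ k : Fin (d + 1), W k.succ = V k := by
      intro k; rw [hW]; rfl
    have h4 : row (nod ℚ q) i (e ((0 : Fin (d + 2)) : ℕ)) = C 2 := by
      rw [Fin.val_zero, hE.e0]
      unfold row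
      simp only [pow_zero, mul_one, map_one]
      rw [← C_1, ← C_add]
      norm_num
    rw [h4, h1]
    simp only [h3, Fin.val_succ]
    rw [← Finset.sum_range (fun k => row (nod ℚ q) i (e (k + 1)) * V k)]
    have h5 : C (2 : ℚ) * (- C (1 / 2 : ℚ) * ∑ k ∈ range (d + 1), (1 + X ^ (e (k + 1))) * V k) =
        - ∑ k ∈ range (d + 1), (1 + X ^ (e (k + 1))) * V k := by
      rw [← mul_assoc, mul_neg, ← C_mul]
      norm_num
    rw [h5, neg_add_eq_zero]
    ext j
    rw [Polynomial.finsetSum_coeff, Polynomial.finsetSum_coeff, ← sub_eq_zero,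
      ← Finset.sum_sub_distrib]
    have h6 : ∀ k ∈ range (d + 1), nod ℚ q i ^ j *
        (((1 + X ^ (e (k + 1))) * V k).coeff j - (row (nod ℚ q) i (e (k + 1)) * V k).coeff j) =
        (w k j * (nod ℚ q i ^ j - nod ℚ q i ^ (j + e (k + 1))) +
      (if e (k + 1) ≤ j then w k (j - e (k + 1)) *
        (nod ℚ q i ^ j - nod ℚ q i ^ (j - e (k + 1))) else 0)) := by
      intro k _
      unfold row
      simp only [add_mul, Polynomial.coeff_add, one_mul, mul_assoc, Polynomial.coeff_C_mul,
        Polynomial.coeff_X_pow_mul', hVc]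
      by_cases hj : e (k + 1) ≤ j
      · rw [if_pos hj, if_pos hj]
        have h7 : nod ℚ q i ^ j = nod ℚ q i ^ (j - e (k + 1)) * nod ℚ q i ^ (e (k + 1)) := by
          rw [← pow_add]; congr 1; omega
        have h8 : nod ℚ q i ^ (e (k + 1)) * (nod ℚ q i)⁻¹ ^ (e (k + 1)) = 1 := by
          rw [← mul_pow, mul_inv_cancel₀ (hnod i), one_pow]
        rw [pow_add]
        have h9 : nod ℚ q i ^ j * (nod ℚ q i)⁻¹ ^ (e (k + 1)) = nod ℚ q i ^ (j - e (k + 1)) := by
          rw [h7, mul_assoc, h8, mul_one]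
        linear_combination (- w k (j - e (k + 1))) * h9
      · rw [if_neg hj, if_neg hj, pow_add]
        ring
    apply mul_left_cancel₀ (pow_ne_zero j (hnod i))
    rw [mul_zero, Finset.mul_sum, Finset.sum_congr rfl h6]
    by_cases hi : (i : ℕ) = 0
    · apply Finset.sum_eq_zero
      intro k _
      rw [hi]
      have : nod ℚ q 0 = 1 := by simp [nod]
      rw [this]
      simp
    · by_cases hj : j < n
      · exact heq j hj i (by omega) (by omega)
      · apply Finset.sum_eq_zero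
        intro k _
        rw [hw k j (by omega)]
        split_ifs with h
        · rw [hw k (j - e (k + 1)) (by omega)]; ring
        · ring
  have hdeg : ∀ j, ∑ k ∈ range (d + 1), e k ≤ j + d * (d + 1) / 2 →
      (W (Fin.last (d + 1))).coeff j = 0 := by
    intro j hj
    have h1 : W (Fin.last (d + 1)) = V d := by
      rw [hW, ← Fin.succ_last]; rfl
    rw [h1, hVc]
    apply hw
    rw [Finset.sum_range_succ] at hn
    omega
  have hfin := hALG q d e W hE hq h2 he hrow hdeg
  intro k hk j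
  have h1 := hfin (Fin.succ ⟨k, by omega⟩)
  have h3 : W (Fin.succ ⟨k, by omega⟩) = V k := by rw [hW]; rfl
  rw [← hVc, ← h3, h1, Polynomial.coeff_zero]

theorem t_STR (hALG : S_ALG) : S_STR := by
  intro q d n e w hE hq h2 he hn
  exact t_STR' hALG q d n e w hE hq h2 he hn.le

end Pool.Agent.Run7.h188.FW
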