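import Pool.Agent.Run7.h188.FW.Fin0
import Pool.Agent.Run7.h188.FW.STR
import Pool.Agent.Run7.h462.FW.RK
import Pool.Agent.Run7.h300.FW.NEC

/-!
# Fine-Wilf for rigidity: the generic rank
-/

set_option autoImplicit false

namespace Pool.Agent.Run7.h188.FW

open Finset Polynomial Pool.Agent.H283R2.DR Pool.Agent.H789R5 Run7.h462.FWR

/-- the rows are linearly independent (as `Run7.h462.FWR.indep`, for all small `n`) -/
theorem indep' (hSTR : S_STR') {q n d : ℕ} {e : ℕ → ℕ} (he : Exps d e) (hq : q.Prime) (hq2 : 2 < q)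
    (heq : e (d + 1) < q) (hn : n + d * (d + 1) / 2 ≤ ∑ k ∈ range (d + 2), e k) :
    LinearIndependent ℝ (fun x : Ix n d e =>
      Pool.Agent.H789R5.row (pl q n d) (lo x) (up x)) := by
  classical
  have hpos : ∀ k, 0 < e (k + 1) := fun k => by
    have h0 : e 0 < e (k + 1) := he.mono (Nat.succ_pos k)
    exact lt_of_le_of_lt (Nat.zero_le _) h0
  rw [Fintype.linearIndependent_iff]
  intro g hg x
  rw [← Module.forall_dual_apply_eq_zero_iff ℚ]
  intro φ
  have h := hSTR q d n e (fun k j => φ (ex g k j)) he hq hq2 heq hn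
    (fun k j hkj => by rw [ex_of_ge g hkj, map_zero]) (fun j hj i hi1 hid => ?_) x.1 (by omega) x.2
  · rw [ex_apply] at h
    exact h
  · have h1 := congrFun hg (⟨j, hj⟩, ⟨i - 1, by omega⟩)
    simp only [Finset.sum_apply, Pi.smul_apply, smul_eq_mul, Pi.zero_apply] at h1
    rw [col q hpos g ⟨j, hj⟩ ⟨i - 1, by omega⟩] at h1
    have h2 := congrArg φ h1
    rw [map_zero, map_sum] at h2
    refine Eq.trans (Finset.sum_congr rfl fun k _ => ?_) h2
    have hi : i - 1 + 1 = i := by omega
    simp only [hi]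
    rw [map_add]
    congr 1
    · have e1 : ex g k j * (nod ℝ q i ^ j - nod ℝ q i ^ (j + e (k + 1))) =
          (nod ℚ q i ^ j - nod ℚ q i ^ (j + e (k + 1)) : ℚ) • ex g k j := by
        rw [Rat.smul_def, nod_cast]
        push_cast
        ring
      rw [e1, map_smul, smul_eq_mul, mul_comm]
    · split_ifs with h3
      · have e1 : ex g k (j - e (k + 1)) * (nod ℝ q i ^ j - nod ℝ q i ^ (j - e (k + 1))) =
            (nod ℚ q i ^ j - nod ℚ q i ^ (j - e (k + 1)) : ℚ) • ex g k (j - e (k + 1)) := by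
          rw [Rat.smul_def, nod_cast]
          push_cast
          ring
        rw [e1, map_smul, smul_eq_mul, mul_comm]
      · rw [map_zero]

/-- the rank at the placement is at least the number of pairs -/
theorem card_le_rank (hSTR : S_STR') {q n d : ℕ} {e : ℕ → ℕ} (he : Exps d e) (hq : q.Prime)
    (hq2 : 2 < q) (heq : e (d + 1) < q) (hn : n + d * (d + 1) / 2 ≤ ∑ k ∈ range (d + 2), e k) :
    ∑ k ∈ range (d + 1), (n - e (k + 1)) ≤ (rigidityMatrix (dG n d e) (pl q n d)).rank := by
  classical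
  have hind := indep' hSTR he hq hq2 heq hn
  have hpos : ∀ k, 0 < e (k + 1) := fun k => by
    have h0 : e 0 < e (k + 1) := he.mono (Nat.succ_pos k)
    exact lt_of_le_of_lt (Nat.zero_le _) h0
  have h1 : Fintype.card (Ix n d e) = ∑ k ∈ range (d + 1), (n - e (k + 1)) := by
    rw [Fintype.card_sigma, Finset.sum_range]
    exact Finset.sum_congr rfl fun k _ => Fintype.card_fin _
  rw [← h1, Matrix.rank_eq_finrank_span_row]
  have hmem : ∀ x : Ix n d e, Pool.Agent.H789R5.row (pl q n d) (lo x) (up x) ∈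
      Submodule.span ℝ (Set.range (rigidityMatrix (dG n d e) (pl q n d)).row) := by
    intro x
    have hadj : (dG n d e).Adj (lo x) (up x) := ⟨x.1, x.1.2, hpos _, Or.inl rfl⟩
    refine Submodule.subset_span ⟨⟨s(lo x, up x), hadj⟩, rfl⟩
  rw [← finrank_span_eq_card hind]
  refine Submodule.finrank_mono (Submodule.span_le.2 ?_)
  rintro _ ⟨x, rfl⟩
  exact hmem x

section Rank

variable {V : Type} [Fintype V] {d : ℕ}

theorem genRank_eq_rank {p : V → Fin d → ℝ} (hp : MG p) (G : SimpleGraph V) :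
    genRank d G = (rigidityMatrix G p).rank := by
  have h1 := genRank_add hp G
  have h2 := rank_add_mo G p
  omega

theorem rank_le_genRank (G : SimpleGraph V) (p : V → Fin d → ℝ) :
    (rigidityMatrix G p).rank ≤ genRank d G := by
  obtain ⟨p0, hp⟩ := exists_mg V d
  have h1 := genRank_add hp G
  have h2 := rank_add_mo G p
  have h3 := hp.min G p
  omega

theorem genRank_le_ncard (G : SimpleGraph V) : genRank d G ≤ G.edgeSet.ncard := by
  classical
  obtain ⟨p0, hp⟩ := exists_mg V d
  rw [genRank_eq_rank hp, Set.ncard_eq_toFinset_card', Set.toFinset_card]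
  exact Matrix.rank_le_card_height _

theorem genRank_le (hd : d ≤ Fintype.card V) (G : SimpleGraph V) :
    genRank d G + d * (d + 1) / 2 ≤ d * Fintype.card V := by
  obtain ⟨p, hp⟩ := exists_mg V d
  have h1 : Module.finrank ℝ (LinearMap.range (TA.triv p)) = d * (d + 1) / 2 := by
    rw [LinearMap.finrank_range_of_inj (triv_inj hp hd), finrank_triv]
  have h2 : Module.finrank ℝ (LinearMap.range (TA.triv p)) ≤ mo G p :=
    Submodule.finrank_mono (TA.range_triv_le G p)
  have h3 := genRank_add hp G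
  omega

theorem genRank_of_genRigid (hd : d ≤ Fintype.card V) {G : SimpleGraph V} (h : GenRigid d G) :
    genRank d G = d * Fintype.card V - d * (d + 1) / 2 := by
  obtain ⟨p, hp⟩ := exists_mg V d
  have h1 := (genRigid_iff hp hd G).1 h
  have h2 := genRank_add hp G
  have h3 := genRank_le hd G
  omega

theorem genRigid_iff_genRank (hd : d ≤ Fintype.card V) (G : SimpleGraph V) :
    GenRigid d G ↔ genRank d G = d * Fintype.card V - d * (d + 1) / 2 := by
  refine ⟨genRank_of_genRigid hd, fun h => ?_⟩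
  obtain ⟨p, hp⟩ := exists_mg V d
  have h1 := genRank_add hp G
  have h2 := genRank_le hd G
  exact (genRigid_iff hp hd G).2 (by omega)

end Rank

/-- the number of edges -/
theorem ncard_le_sum (n d : ℕ) (e : ℕ → ℕ) :
    (dG n d e).edgeSet.ncard ≤ ∑ k ∈ range (d + 1), (n - e (k + 1)) := by
  classical
  rw [Set.ncard_eq_toFinset_card', ← SimpleGraph.edgeFinset]
  let f : (k : ℕ) → Fin (n - e (k + 1)) → Sym2 (Fin n) := fun k j =>
    s(⟨(j : ℕ), by omega⟩, ⟨(j : ℕ) + e (k + 1), by omega⟩)
  have hsub : (dG n d e).edgeFinset ⊆ (range (d + 1)).biUnion fun k => Finset.univ.image (f k) := by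
    intro x
    induction x using Sym2.ind with
    | _ u v =>
      intro hx
      rw [SimpleGraph.mem_edgeFinset, SimpleGraph.mem_edgeSet] at hx
      obtain ⟨k, hk, hk0, h⟩ := hx
      rw [mem_biUnion]
      refine ⟨k, mem_range.2 hk, ?_⟩
      rw [mem_image]
      rcases h with h | h
      · refine ⟨⟨u, by omega⟩, mem_univ _, ?_⟩
        have : (⟨(u : ℕ) + e (k + 1), by omega⟩ : Fin n) = v := Fin.ext h
        show s((⟨(u : ℕ), _⟩ : Fin n), (⟨(u : ℕ) + e (k + 1), _⟩ : Fin n)) = s(u, v)
        rw [this]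
      · refine ⟨⟨v, by omega⟩, mem_univ _, ?_⟩
        have : (⟨(v : ℕ) + e (k + 1), by omega⟩ : Fin n) = u := Fin.ext h
        show s((⟨(v : ℕ), _⟩ : Fin n), (⟨(v : ℕ) + e (k + 1), _⟩ : Fin n)) = s(u, v)
        rw [this]
        exact Sym2.eq_swap
  calc (dG n d e).edgeFinset.card
      ≤ ((range (d + 1)).biUnion fun k => Finset.univ.image (f k)).card := card_le_card hsub
    _ ≤ ∑ k ∈ range (d + 1), (Finset.univ.image (f k)).card := card_biUnion_le
    _ ≤ ∑ k ∈ range (d + 1), (n - e (k + 1)) := by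
        refine sum_le_sum fun k _ => ?_
        refine card_image_le.trans ?_
        rw [card_univ, Fintype.card_fin]

/-- few vertices: the edges are independent -/
theorem genRank_small (hSTR : S_STR') {n d : ℕ} {e : ℕ → ℕ} (he : Exps d e)
    (hn : n + d * (d + 1) / 2 ≤ ∑ k ∈ range (d + 2), e k) :
    genRank d (dG n d e) = (dG n d e).edgeSet.ncard := by
  obtain ⟨q, hq1, hq⟩ := Nat.exists_infinite_primes (e (d + 1) + 3)
  have h1 := card_le_rank hSTR he hq (by omega) (by omega) hn
  have h2 := rank_le_genRank (dG n d e) (pl q n d)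
  have h3 := ncard_le_sum n d e
  have h4 := genRank_le_ncard (d := d) (dG n d e)
  omega

theorem genRank_main (hSTR : S_STR') (hEXT : S_EXT) {n d : ℕ}
    {e : ℕ → ℕ} (he : Exps d e) (hd : d ≤ n) :
    genRank d (dG n d e) = min (dG n d e).edgeSet.ncard (d * n - d * (d + 1) / 2) := by
  have hle := genRank_le (V := Fin n) (d := d) (by rw [Fintype.card_fin]; exact hd) (dG n d e)
  rw [Fintype.card_fin] at hle
  rcases Nat.le_or_ge (n + d * (d + 1) / 2) (∑ k ∈ range (d + 2), e k) with h | h
  · rw [genRank_small hSTR he h] at hle ⊢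
    omega
  · have hs := sum_ge he
    have hen : e (d + 1) ≤ n := by omega
    have hSTR0 : S_STR := fun q d n e w hE hq h2 he hn => hSTR q d n e w hE hq h2 he hn.le
    have hr : GenRigid d (dG n d e) :=
      (main0 (t_RK hSTR0) hEXT Pool.Agent.Run7.h300.FW.t_NEC he hen).2 h
    have h1 := genRank_of_genRigid (by rw [Fintype.card_fin]; exact hd) hr
    rw [Fintype.card_fin] at h1
    have h2 := genRank_le_ncard (d := d) (dG n d e)
    omega

theorem main_rank (hSTR : S_STR') (hEXT : S_EXT) (d : ℕ) (e : ℕ → ℕ) (h0 : e 0 = 0)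
    (hm : ∀ k ≤ d, e k < e (k + 1))
    (hc : ∀ k < d, Nat.Coprime (e (k + 1) - e k) (e (k + 2) - e (k + 1))) (n : ℕ) (hn : d ≤ n) :
    genRank d (dG n d e) = min (dG n d e).edgeSet.ncard (d * n - d * (d + 1) / 2) := by
  have hE := exps_cont h0 hm hc
  have hk : ∀ k, k ≤ d + 1 → e k = cont d e k := fun k hk => by unfold cont; rw [if_pos hk]
  rw [dG_congr hk]
  exact genRank_main hSTR hEXT hE hn

end Pool.Agent.Run7.h188.FW
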