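import Pool.Agent.Run7.h188.FW.ALG
import Pool.Agent.Run7.h188.FW.Fin1
import Pool.Agent.Run7.h194.FW.TR
import Pool.Agent.Run7.h194.FW.NT
import Pool.Agent.Run7.h300.FW.I12
import Pool.Agent.Run7.h300.FW.PAD
import Pool.Agent.Run7.h300.FW.NEC
import Pool.Agent.Run7.h818.FW.T1
import Pool.Agent.Run7.h818.FW.T2
import Pool.Agent.Run7.h896.FW.C1
import Pool.Agent.Run7.h896.FW.C2
import Pool.Agent.Run7.h896.FW.C3
import Pool.Agent.Run7.h896.FW.C4
import Pool.Agent.Run7.h462.FW.RK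
import Pool.Agent.Run7.h462.FW.EXT

/-!
# A Fine-Wilf theorem for generic rigidity: assembly of all pieces
-/

set_option autoImplicit false

namespace Pool.Agent.Run7.h188.FW

open Finset Pool.Agent.H283R2.DR Pool.Agent.H789R5

theorem trb : S_TRB := Pool.Agent.Run7.h194.FW.t_TRB Pool.Agent.Run7.h194.FW.t_TRA

theorem nt : S_NT := Pool.Agent.Run7.h194.FW.t_NT Pool.Agent.Run7.h194.FW.t_TRA

theorem t1 : S_T1 := Pool.Agent.Run7.h818.FW.t_T1 trb

theorem t2 : S_T2 := Pool.Agent.Run7.h818.FW.t_T2 trb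

theorem alg : S_ALG := t_ALG (Pool.Agent.Run7.h300.FW.t_I1 nt t1 t2) (Pool.Agent.Run7.h300.FW.t_I2 t2)
  (Pool.Agent.Run7.h300.FW.t_LC nt) Pool.Agent.Run7.h896.FW.t_C1 Pool.Agent.Run7.h896.FW.t_C2
  Pool.Agent.Run7.h896.FW.t_C3 Pool.Agent.Run7.h896.FW.t_C4 Pool.Agent.Run7.h300.FW.t_PAD
  Pool.Agent.Run7.h300.FW.t_DAT

theorem str' : S_STR' := t_STR' alg

theorem str : S_STR := fun q d n e w hE hq h2 he hn => str' q d n e w hE hq h2 he hn.le

theorem fineWilf (d : ℕ) (e : ℕ → ℕ) (h0 : e 0 = 0) (hm : ∀ k ≤ d, e k < e (k + 1))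
    (hc : ∀ k < d, Nat.Coprime (e (k + 1) - e k) (e (k + 2) - e (k + 1))) (n : ℕ) :
    (d ≤ n → genRank d (dG n d e) = min (dG n d e).edgeSet.ncard (d * n - d * (d + 1) / 2) ∧
      (GenRigid d (dG n d e) ↔ d * n ≤ (dG n d e).edgeSet.ncard + d * (d + 1) / 2)) ∧
    (e (d + 1) ≤ n →
      (GenRigid d (dG n d e) ↔ ∑ k ∈ range (d + 2), e k ≤ n + d * (d + 1) / 2)) := by
  refine ⟨fun hn => ?_, fun hn => ?_⟩
  · have h1 := main_rank str' Run7.h462.FWE.t_EXT d e h0 hm hc n hn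
    refine ⟨h1, ?_⟩
    have hn' : d ≤ Fintype.card (Fin n) := by rw [Fintype.card_fin]; exact hn
    rw [genRigid_iff_genRank hn', Fintype.card_fin, h1]
    omega
  · exact main (Run7.h462.FWR.t_RK str) Run7.h462.FWE.t_EXT Pool.Agent.Run7.h300.FW.t_NEC d e h0 hm hc
      n hn

end Pool.Agent.Run7.h188.FW
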