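import Pool.Agent.Run7.h188.FW.Stm

/-!
# Fine-Wilf for rigidity: the algebraic statement over `ℚ`
-/

set_option autoImplicit false

namespace Pool.Agent.Run7.h188.FW

open Finset Polynomial

theorem t_ALG : S_I1 → S_I2 → S_LC → S_C1 → S_C2 → S_C3 → S_C4 → S_PAD → S_DAT → S_ALG := by
  intro hI1 hI2 hLC hC1 hC2 hC3 hC4 hPAD hDAT q d e W hE hq h2 he hW hdeg
  obtain ⟨L, iN, iU, iA, iC, hq1, hnum⟩ := hPAD q hq
  have hD : Dat (nod L q) d e := hDAT L q d e hq h2 he hq1 hnum
  have hne := hD.ne
  have hprod : ∀ i j k l : ℕ, i < j → k < l → nod L q i * nod L q j = nod L q k * nod L q l →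
      i = k ∧ j = l := by
    intro i j k l hij hkl h
    rcases hD.sep i j k l (by rw [h]) with h' | ⟨h1, h2⟩
    · exact h'
    · omega
  let φ : ℚ →+* L := Rat.castHom L
  have hφn : ∀ i, φ (nod ℚ q i) = nod L q i := by
    intro i
    simp only [nod, map_pow, map_natCast]
  have hrow : ∀ i x, (row (nod ℚ q) i x).map φ = row (nod L q) i x := by
    intro i x
    simp only [row, Polynomial.map_add, Polynomial.map_mul, Polynomial.map_C, Polynomial.map_pow,
      Polynomial.map_X, map_pow, map_inv₀, hφn]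
  obtain ⟨P, D, hP, hPd, hF, hD0⟩ := hC2 L (nod L q) d e hne hprod
    (fun z hz c hc => hI1 L (nod L q) d e hE hD z hz c hc)
    (fun i j hij hj c c' hci hc => hI2 L (nod L q) d e hE hD i j hij hj c c' hci hc)
  have h2L : (2 : L) ≠ 0 := by
    have := hD.two
    intro h
    rw [h, norm_zero] at this
    exact zero_ne_one this
  have hlast := hC3 L (nod L q) d e h2L hE.mono hE.e0 hne
    (fun c hc => hLC L (nod L q) d e hE hD c hc)
  have hker : ∀ i : Fin (d + 1), ∑ k : Fin (d + 2), row (nod L q) i (e k) * (W k).map φ = 0 := by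
    intro i
    have := congrArg (Polynomial.map φ) (hW i)
    rw [Polynomial.map_sum, Polynomial.map_zero] at this
    rw [← this]
    refine Finset.sum_congr rfl fun k _ => ?_
    rw [Polynomial.map_mul, hrow]
  have hcr := hC1 L (nod L q) d e (fun k => (W k).map φ) hker
  have hz := hC4 L (d + 1) (∑ k ∈ range (d + 1), e k) P D (Cf (nod L q) d e)
    (fun k => (W k).map φ) (d * (d + 1) / 2) hP hPd hF hD0 hcr hlast (by
      intro j hj
      show ((W (Fin.last (d + 1))).map φ).coeff j = 0
      rw [Polynomial.coeff_map, hdeg j hj, map_zero])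
  intro k
  have := hz k
  exact (Polynomial.map_eq_zero_iff φ.injective).1 this

end Pool.Agent.Run7.h188.FW
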