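import Pool.Agent.Run7.h188.FW.Stm

/-!
# Fine-Wilf for rigidity: assembly from RK, EXT, NEC
-/

set_option autoImplicit false

namespace Pool.Agent.Run7.h188.FW

open Finset Pool.Agent.H283R2.DR

theorem genRigid_mono {V : Type*} {d : ℕ} {G H : SimpleGraph V} (h : G ≤ H)
    (hG : GenRigid d G) : GenRigid d H := by
  obtain ⟨p, hp⟩ := hG
  exact ⟨p, fun q hq => hp q fun u v huv => hq u v (h huv)⟩

theorem dG_congr {n d : ℕ} {e e' : ℕ → ℕ} (h : ∀ k, k ≤ d + 1 → e k = e' k) :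
    dG n d e = dG n d e' := by
  ext i j
  constructor
  · rintro ⟨k, hk, h1, h2⟩
    refine ⟨k, hk, ?_, ?_⟩
    · rw [← h (k + 1) (by omega)]; exact h1
    · rw [← h (k + 1) (by omega)]; exact h2
  · rintro ⟨k, hk, h1, h2⟩
    refine ⟨k, hk, ?_, ?_⟩
    · rw [h (k + 1) (by omega)]; exact h1
    · rw [h (k + 1) (by omega)]; exact h2

theorem ge_of_exps {d : ℕ} {e : ℕ → ℕ} (hE : Exps d e) (k : ℕ) : k ≤ e k :=
  hE.mono.id_le k

theorem sum_ge {d : ℕ} {e : ℕ → ℕ} (hE : Exps d e) :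
    d * (d + 1) / 2 + e (d + 1) ≤ ∑ k ∈ range (d + 2), e k := by
  rw [Finset.sum_range_succ]
  have h1 : ∑ k ∈ range (d + 1), k ≤ ∑ k ∈ range (d + 1), e k :=
    Finset.sum_le_sum fun k _ => ge_of_exps hE k
  rw [Finset.sum_range_id] at h1
  have h2 : (d + 1) * (d + 1 - 1) / 2 = d * (d + 1) / 2 := by
    rw [Nat.add_sub_cancel, mul_comm]
  omega

theorem main0 (hRK : S_RK) (hEXT : S_EXT) (hNEC : S_NEC) {d : ℕ} {e : ℕ → ℕ} (hE : Exps d e)
    {n : ℕ} (hn : e (d + 1) ≤ n) :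
    GenRigid d (dG n d e) ↔ ∑ k ∈ range (d + 2), e k ≤ n + d * (d + 1) / 2 := by
  refine ⟨hNEC d n e hE hn, ?_⟩
  intro h
  have hs := sum_ge hE
  set n0 := ∑ k ∈ range (d + 2), e k - d * (d + 1) / 2 with hn0
  have h0 : n0 + d * (d + 1) / 2 = ∑ k ∈ range (d + 2), e k := by omega
  have hle : n0 ≤ n := by omega
  have hen : e (d + 1) ≤ n0 := by omega
  have hd : d ≤ n0 := le_trans (by have := ge_of_exps hE (d + 1); omega) hen
  have key : ∀ m, n0 ≤ m → GenRigid d (dG m d e) := by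
    intro m hm
    induction m, hm using Nat.le_induction with
    | base => exact hRK d n0 e hE hd h0
    | succ m hm ih => exact hEXT d m e hE (le_trans hen hm) ih
  exact key n hle

/-- the exponents continued beyond `d + 1` -/
def cont (d : ℕ) (e : ℕ → ℕ) (k : ℕ) : ℕ := if k ≤ d + 1 then e k else e (d + 1) + (k - (d + 1))

theorem exps_cont {d : ℕ} {e : ℕ → ℕ} (h0 : e 0 = 0) (hm : ∀ k ≤ d, e k < e (k + 1))
    (hc : ∀ k < d, Nat.Coprime (e (k + 1) - e k) (e (k + 2) - e (k + 1))) :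
    Exps d (cont d e) := by
  refine ⟨strictMono_nat_of_lt_succ ?_, ?_, ?_⟩
  · intro k
    unfold cont
    rcases Nat.lt_trichotomy k (d + 1) with h | h | h
    · rw [if_pos (by omega), if_pos (by omega)]
      exact hm k (by omega)
    · subst h
      rw [if_pos (by omega), if_neg (by omega)]
      omega
    · rw [if_neg (by omega), if_neg (by omega)]
      omega
  · unfold cont
    rw [if_pos (by omega), h0]
  · intro k hk
    unfold cont
    rw [if_pos (by omega), if_pos (by omega), if_pos (by omega)]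
    exact hc k hk

theorem main (hRK : S_RK) (hEXT : S_EXT) (hNEC : S_NEC) (d : ℕ) (e : ℕ → ℕ) (h0 : e 0 = 0)
    (hm : ∀ k ≤ d, e k < e (k + 1))
    (hc : ∀ k < d, Nat.Coprime (e (k + 1) - e k) (e (k + 2) - e (k + 1))) (n : ℕ)
    (hn : e (d + 1) ≤ n) :
    GenRigid d (dG n d e) ↔ ∑ k ∈ range (d + 2), e k ≤ n + d * (d + 1) / 2 := by
  have hE := exps_cont h0 hm hc
  have hk : ∀ k, k ≤ d + 1 → e k = cont d e k := fun k hk => by unfold cont; rw [if_pos hk]
  have hs : ∑ k ∈ range (d + 2), e k = ∑ k ∈ range (d + 2), cont d e k :=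
    Finset.sum_congr rfl fun k h => hk k (by rw [Finset.mem_range] at h; omega)
  rw [dG_congr hk, hs]
  exact main0 hRK hEXT hNEC hE (by rw [← hk (d + 1) le_rfl]; exact hn)

end Pool.Agent.Run7.h188.FW
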