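import Pool.Agent.H789R5.RF.Rank
import Pool.Agent.H283R2.DR.IndepLocal

/-!
# A Fine-Wilf theorem for generic rigidity: interface

THEOREM. Let `0 = e 0 < e 1 < ... < e (d+1)` with `gcd (e (k+1) - e k) (e (k+2) - e (k+1)) = 1` for
`k < d`. For `n` at least `e (d+1)`, the graph `dG n d e` on `0, .., n-1` in which `i`, `j` are
adjacent iff `|i - j|` is one of the `d + 1` numbers `e 1, .., e (d+1)` is generically rigid in
`d`-space iff `n + d (d+1) / 2` is at least `e 1 + .. + e (d+1)`. (`d = 1`: Fine and Wilf.)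

Method: vertex `j` is placed at `(κ 1 ^ j, .., κ d ^ j)`, `κ i = q ^ (2^i - 1)`, `q` a large prime,
`κ 0 = 1`. A stress gives polynomials `W k` with `∑ k, (κ i ^ e k + κ i ^ (- e k) X ^ e k) W k = 0`
for `i = 0, .., d`; the maximal minors of this matrix have the gcd `∏ (X - κ i κ j)` only, by a
`q`-adic argument; so `W` is too short to be a multiple of the primitive solution.

All pieces are closed Props `S_...`. PLEASE prove `theorem t_XXX : S_A → S_B → ... → S_XXX` in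
`Pool/Agent/Run7/<you>/FW/XXX.lean` (hypotheses only from the column `hyps` of table h188_fw).
-/

set_option autoImplicit false

namespace Pool.Agent.Run7.h188.FW

open Finset Polynomial Pool.Agent.H283R2.DR Pool.Agent.H789R5

/-- The distance graph with the differences `e 1, .., e (d+1)` on `0, .., n-1`. -/
def dG (n d : ℕ) (e : ℕ → ℕ) : SimpleGraph (Fin n) where
  Adj i j := ∃ k, k < d + 1 ∧ 0 < e (k + 1) ∧ ((i : ℕ) + e (k + 1) = j ∨ (j : ℕ) + e (k + 1) = i)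
  symm := ⟨fun _ _ ⟨k, h1, h2, h3⟩ => ⟨k, h1, h2, h3.symm⟩⟩
  loopless := ⟨fun _ ⟨_, _, h2, h3⟩ => by omega⟩

/-- The exponents: `0 = e 0 < e 1 < ...`, consecutive gaps coprime. -/
structure Exps (d : ℕ) (e : ℕ → ℕ) : Prop where
  mono : StrictMono e
  e0 : e 0 = 0
  cop : ∀ k, k < d → Nat.Coprime (e (k + 1) - e k) (e (k + 2) - e (k + 1))

/-- The nodes: nonzero, the norms of all products of two nodes are different; the numbers up to
`e (d+1)` are units. -/
structure Dat {L : Type} [NormedField L] (κ : ℕ → L) (d : ℕ) (e : ℕ → ℕ) : Prop where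
  num : ∀ m : ℕ, 0 < m → m ≤ e (d + 1) → ‖(m : L)‖ = 1
  two : ‖(2 : L)‖ = 1
  ne : ∀ i, κ i ≠ 0
  sep : ∀ i j k l : ℕ, ‖κ i * κ j‖ = ‖κ k * κ l‖ → (i = k ∧ j = l) ∨ (i = l ∧ j = k)

/-- `i` is a maximiser of `C i * s i ^ x` on `I`. -/
def Mx (I : Finset ℕ) (C s : ℕ → ℝ) (x i : ℕ) : Prop :=
  i ∈ I ∧ ∀ j ∈ I, C j * s j ^ x ≤ C i * s i ^ x

/-- The entry. -/
def T {L : Type} [Field L] (κ : ℕ → L) (z : L) (i x : ℕ) : L := κ i ^ x + (z / κ i) ^ x

/-- The row `(T i - T j) / (ρ - 1)`, `ρ = z / (κ i κ j)`. One has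
`T κ z i x - T κ z j x = (ρ - 1) * Rp κ z i j x`. -/
def Rp {L : Type} [Field L] (κ : ℕ → L) (z : L) (i j x : ℕ) : L :=
  (∑ t ∈ range x, (z / (κ i * κ j)) ^ t) * (κ j ^ x - κ i ^ x)

/-! ## Tropical part -/

/-- **TRA** (30 lines). If for each `x ∈ K` there are two different maximisers, then
`#K < #I`. PROOF. For `x < x'`, `i` maximiser at `x`, `i'` at `x'`: `s i ≤ s i'` (multiply
`C i' s i' ^ x ≤ C i s i ^ x` and `C i s i ^ x' ≤ C i' s i' ^ x'`; the constants of maximisers are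
positive since some `C` is positive). Let `f x`, `g x` be two maximisers at `x`, `s (f x) < s (g x)`
(they are different and `s` is injective on `I`). Then `s (f x) < s (g x) ≤ s (f x')` for `x < x'`,
so `f` is injective on `K`, and `g (max K)` is not in the image of `f`. (`K` empty: `I` is
nonempty.) -/
def S_TRA : Prop := ∀ (I : Finset ℕ) (C s : ℕ → ℝ) (K : Finset ℕ),
  (∀ i ∈ I, 0 < s i) → (∀ i ∈ I, 0 ≤ C i) → (∃ i ∈ I, 0 < C i) → Set.InjOn s I →
  (∀ x ∈ K, ∃ i j, i ≠ j ∧ Mx I C s x i ∧ Mx I C s x j) → K.card < I.card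

/-- **TRB** (60 lines, from TRA). If `b ∈ I` and for each `k < #I + 2` there are two maximisers at
`e k`, or `b` is the only maximiser there, then for three consecutive indices `b` is the only
maximiser. PROOF. By TRA at most `#I - 1` of the `#I + 2` indices `k` have two maximisers, so at
least three have `b` as the only maximiser (there is always a maximiser, `I` is finite and
nonempty). These indices form an interval: if `b` is the only maximiser at `x < x'' ` and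
`x < x' < x''`, a maximiser `i` at `x'` has `s b ≤ s i ≤ s b` (monotonicity as in TRA), so
`i = b`. -/
def S_TRB : Prop := ∀ (I : Finset ℕ) (C s : ℕ → ℝ) (e : ℕ → ℕ) (b : ℕ), b ∈ I → StrictMono e →
  (∀ i ∈ I, 0 < s i) → (∀ i ∈ I, 0 ≤ C i) → (∃ i ∈ I, 0 < C i) → Set.InjOn s I →
  (∀ k < I.card + 2, (∃ i j, i ≠ j ∧ Mx I C s (e k) i ∧ Mx I C s (e k) j) ∨
    ∀ i, Mx I C s (e k) i → i = b) →
  ∃ k, k + 2 < I.card + 2 ∧ ∀ l, (l = k ∨ l = k + 1 ∨ l = k + 2) → ∀ i, Mx I C s (e l) i → i = b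

/-! ## Ultrametric part. Below `s l = max ‖κ l‖ ‖z / κ l‖`. -/

/-- **NT** (100 lines, from TRA). No tie: if `‖z‖ ≠ ‖κ i κ j‖` for `i ≠ j` then the rows are
independent (already on the columns `e 0, .., e d`). PROOF. The `s l` (`l ≤ d`) are positive and
different: `s l = s m` gives `‖κ l‖ = ‖κ m‖` (then `l = m` by `sep` for `κ l κ l`, `κ m κ m`), the
same for `‖z/κ l‖ = ‖z/κ m‖`, `z ≠ 0`, or `‖z‖ = ‖κ l κ m‖`. At most one `l0` has
`‖z‖ = ‖κ l0‖ ^ 2`, and then `s l0 = ‖κ l0‖` is the least of all `s l` (`s l ≥ sqrt ‖z‖`). For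
`l ≠ l0`: `‖T l x‖ = (s l) ^ x` (for `x = 0` it is `‖2‖ = 1`), for `l0`: `≤`, with equality for
`x = 0`. Let `C l = ‖c l‖` not all `0`. At each `x = e k`, `k ≤ d`, there are two maximisers of
`C l (s l)^x`: if there was only one, `l`, it is `l0` (otherwise the sum has norm `C l (s l)^x > 0`);
but if `l0` is the only maximiser at `x` it is also the only one at `0 ≤ x` (its `s` is least), and
there `‖T l0 0‖ = 1`, a contradiction with the equation for `e 0 = 0`. So TRA with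
`K = {e 0, .., e d}`, `I = range (d+1)` is a contradiction. -/
def S_NT : Prop := ∀ (L : Type) [NormedField L] [IsUltrametricDist L] (κ : ℕ → L) (d : ℕ)
  (e : ℕ → ℕ), Exps d e → Dat κ d e → ∀ z : L,
  (∀ i j, i ≤ d → j ≤ d → i ≠ j → ‖z‖ ≠ ‖κ i * κ j‖) → ∀ c : ℕ → L,
  (∀ k ≤ d, ∑ i ∈ range (d + 1), c i * T κ z i (e k) = 0) → ∀ i ≤ d, c i = 0

/-- **T1** (140 lines, from TRB). A tie with `‖ρ - 1‖ = 1`, `ρ = z / (κ i κ j)`. Say
`‖κ i‖ < ‖κ j‖` (symmetric). PROOF. `‖ρ‖ = 1`, `z / κ i = ρ κ j`, `z / κ j = ρ κ i`. Let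
`I = range (d+1) \ {i}`, `b = j`, `s b = ‖κ j‖`, `C b = max ‖c i‖ ‖c j‖`, `C l = ‖c l‖` for the
other `l`. The `s l`, `l ∈ I`, are different (as in NT, by `sep`), and for `l ≠ i, j` one has
`‖z‖ ≠ ‖κ l‖ ^ 2` by `sep`, so `‖T l x‖ = (s l)^x`. The block
`B x = c i T i x + c j T j x = κ j ^ x (c i ρ^x + c j) + κ i ^ x (c i + c j ρ^x)` has
`‖B x‖ ≤ C b (s b)^x`. If not all `C` are `0`: at each `x = e k` there are two maximisers, or `b` is
the only one and then `‖B x‖ < C b (s b)^x` (otherwise the sum does not vanish), so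
`‖c i ρ^x + c j‖ < C b` (for `x > 0` because `‖κ i‖^x < ‖κ j‖^x`; for `x = 0`, `B 0 = 2 (c i + c j)`).
By TRB (`#I = d`) this happens for `e k, e (k+1), e (k+2)` with `k + 2 ≤ d + 1`. Hence
`‖c i‖ = ‖c j‖ = C b > 0` (`b` is the only maximiser, so `C b > 0`), and
`‖ρ^(e (k+1) - e k) - 1‖ < 1`, `‖ρ^(e (k+2) - e (k+1)) - 1‖ < 1`. The integers `m` with
`‖ρ^m - 1‖ < 1` are a subgroup, which contains two coprime numbers: `‖ρ - 1‖ < 1`, contradiction. -/
def S_T1 : Prop := ∀ (L : Type) [NormedField L] [IsUltrametricDist L] (κ : ℕ → L) (d : ℕ)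
  (e : ℕ → ℕ), Exps d e → Dat κ d e → ∀ (z : L) (i j : ℕ), i ≤ d → j ≤ d → i ≠ j →
  ‖κ i‖ < ‖κ j‖ → ‖z‖ = ‖κ i * κ j‖ → ‖z / (κ i * κ j) - 1‖ = 1 → ∀ c : ℕ → L,
  (∀ k ≤ d + 1, ∑ l ∈ range (d + 1), c l * T κ z l (e k) = 0) → ∀ l ≤ d, c l = 0

/-- **T2** (140 lines, from TRB). A tie with `‖ρ - 1‖ < 1`: the rows `T l` (`l ≠ i`) and `Rp i j`
are independent. PROOF. As T1 with `I = range (d+1) \ {i}`, `b = j`, `C b = max ‖c'‖ ‖c j‖`. With
`θ x = ∑_{t<x} ρ^t`, `‖θ x - x‖ < 1`, the block is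
`B x = c' Rp i j x + c j T j x = κ j ^ x (c' θ x + c j) + κ i ^ x (c j ρ^x - c' θ x)`. If
`‖B x‖ < C b (s b)^x` then `‖c' x + c j‖ < C b` (for `x = 0`: `B 0 = 2 c j`). This happens for
`x = e k` and `x' = e (k+1)`, `k + 1 ≤ d + 1` (TRB), so `‖c' (x' - x)‖ < C b`, and
`‖x' - x‖ = 1` by `num`, so `‖c'‖ < C b`, `C b = ‖c j‖` and `‖c' x + c j‖ = C b`, contradiction.
So all `C` are `0`. -/
def S_T2 : Prop := ∀ (L : Type) [NormedField L] [IsUltrametricDist L] (κ : ℕ → L) (d : ℕ)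
  (e : ℕ → ℕ), Exps d e → Dat κ d e → ∀ (z : L) (i j : ℕ), i ≤ d → j ≤ d → i ≠ j →
  ‖κ i‖ < ‖κ j‖ → ‖z‖ = ‖κ i * κ j‖ → ‖z / (κ i * κ j) - 1‖ < 1 → ∀ (c : ℕ → L) (c' : L),
  c i = 0 →
  (∀ k ≤ d + 1, ∑ l ∈ range (d + 1), c l * T κ z l (e k) + c' * Rp κ z i j (e k) = 0) →
  c' = 0 ∧ ∀ l ≤ d, c l = 0

/-- **I1** (50 lines, from NT, T1, T2). PROOF. If `‖z‖ ≠ ‖κ i κ j‖` for all `i ≠ j` use NT.
Otherwise choose such `i, j`, with `‖κ i‖ < ‖κ j‖` (they are different by `sep`).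
`‖ρ - 1‖ ≤ 1`. If it is `1` use T1. If it is smaller: `ρ ≠ 1`, and
`c i T i + c j T j = c i (ρ - 1) Rp i j + (c i + c j) T j`; T2 gives `c i (ρ - 1) = 0`,
`c i + c j = 0` and `c l = 0` for the others. -/
def S_I1 : Prop := ∀ (L : Type) [NormedField L] [IsUltrametricDist L] (κ : ℕ → L) (d : ℕ)
  (e : ℕ → ℕ), Exps d e → Dat κ d e → ∀ z : L, (∀ i j, i < j → j ≤ d → z ≠ κ i * κ j) →
  ∀ c : ℕ → L, (∀ k ≤ d + 1, ∑ i ∈ range (d + 1), c i * T κ z i (e k) = 0) → ∀ i ≤ d, c i = 0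

/-- **I2** (40 lines, from T2). PROOF. `ρ = 1`, `Rp κ z i j x = x (κ j ^ x - κ i ^ x)`,
`T i = T j`. If `‖κ i‖ < ‖κ j‖` it is T2; if `‖κ j‖ < ‖κ i‖` apply T2 to `(j, i)` and the
coefficients with `c i`, `c j` exchanged and `- c'`. -/
def S_I2 : Prop := ∀ (L : Type) [NormedField L] [IsUltrametricDist L] (κ : ℕ → L) (d : ℕ)
  (e : ℕ → ℕ), Exps d e → Dat κ d e → ∀ i j : ℕ, i < j → j ≤ d → ∀ (c : ℕ → L) (c' : L), c i = 0 →
  (∀ k ≤ d + 1, ∑ l ∈ range (d + 1), c l * T κ (κ i * κ j) l (e k) +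
    c' * ((e k : L) * (κ j ^ (e k) - κ i ^ (e k))) = 0) → c' = 0 ∧ ∀ l ≤ d, c l = 0

/-- **LC** (25 lines, from NT). PROOF. NT for the nodes `(κ i)⁻¹` and `z = 0`: there
`T (e k) = (κ i)⁻¹ ^ e k` for `k > 0` and `T 0 = 2`; `Dat` for the inverses is clear. -/
def S_LC : Prop := ∀ (L : Type) [NormedField L] [IsUltrametricDist L] (κ : ℕ → L) (d : ℕ)
  (e : ℕ → ℕ), Exps d e → Dat κ d e → ∀ c : ℕ → L,
  (∀ k ≤ d, ∑ i ∈ range (d + 1), c i * (κ i)⁻¹ ^ (e k) = 0) → ∀ i ≤ d, c i = 0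

/-! ## Polynomial part -/

/-- The entry as a polynomial; its value at `z` is `T κ z i x`. -/
noncomputable def row {L : Type} [Field L] (κ : ℕ → L) (i x : ℕ) : L[X] :=
  C (κ i ^ x) + C ((κ i)⁻¹ ^ x) * X ^ x

/-- The matrix with a zero row on top and then the rows `row κ i (e ·)`, `i ≤ d`. -/
noncomputable def N {L : Type} [Field L] (κ : ℕ → L) (d : ℕ) (e : ℕ → ℕ) :
    Matrix (Fin (d + 2)) (Fin (d + 2)) L[X] :=
  Matrix.of (Fin.cons (fun _ => 0) (fun (i : Fin (d + 1)) (k : Fin (d + 2)) => row κ i (e k)))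

/-- The cofactors (signed maximal minors). -/
noncomputable def Cf {L : Type} [Field L] (κ : ℕ → L) (d : ℕ) (e : ℕ → ℕ) (k : Fin (d + 2)) :
    L[X] := ((N κ d e).updateRow 0 (Pi.single k 1)).det

/-- **C1** (30 lines). PROOF. Let `A` be `N` with the first row replaced by `Pi.single k 1`. Then
`A W` is the vector `(W k, 0, .., 0)`, so `det A * W l = (adjugate A (A W)) l = adjugate A l 0 * W k`,
and `adjugate A l 0 = det (A.updateRow 0 (Pi.single l 1)) = Cf l` (`Matrix.adjugate_apply`), while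
`det A = Cf k`. -/
def S_C1 : Prop := ∀ (L : Type) [Field L] (κ : ℕ → L) (d : ℕ) (e : ℕ → ℕ)
  (W : Fin (d + 2) → L[X]), (∀ i : Fin (d + 1), ∑ k : Fin (d + 2), row κ i (e k) * W k = 0) →
  ∀ k l, W l * Cf κ d e k = W k * Cf κ d e l

/-- **C2** (130 lines). `hI1`, `hI2` are the conclusions of I1, I2. PROOF. Let
`P = ∏_{i<j≤d} (X - C (κ i κ j))`, monic of degree `d (d+1) / 2`. At `z = κ i κ j` the rows `i`, `j`
of `N` have the same values, so all `Cf k` vanish there; the roots are different, so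
`Cf k = P * D k`. Let `z` be given. (a) `z` is none of the `κ i κ j`: by `hI1` the rows
`T κ z i (e ·)` (`i ≤ d`) of `Fin (d+2) → L` are linearly independent; they do not span, so for some
`k` the vector `Pi.single k 1` is not in the span, and the determinant `eval z (Cf k)` of the square
matrix is not `0`; so `D k` does not vanish at `z`. (b) `z = κ i κ j`: subtracting row `j` from row
`i`, `row κ i x - row κ j x = (X - C z) * C (z⁻¹ * (κ j ^ x - κ i ^ x)) * ∑_{t<x} (C z⁻¹ * X)^t`, so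
`Cf k = (X - C z) * F k` with `F k` the determinant with the divided row, whose value at `z` is
`z⁻¹ * x * (κ j ^ x - κ i ^ x)`; by `hI2` these rows are independent at `z`, so some `F k` does not
vanish at `z`; `F k = (P / (X - C z)) * D k`, so `D k` does not vanish at `z`. -/
def S_C2 : Prop := ∀ (L : Type) [Field L] (κ : ℕ → L) (d : ℕ) (e : ℕ → ℕ), (∀ i, κ i ≠ 0) →
  (∀ i j k l : ℕ, i < j → k < l → κ i * κ j = κ k * κ l → i = k ∧ j = l) →
  (∀ z : L, (∀ i j, i < j → j ≤ d → z ≠ κ i * κ j) → ∀ c : ℕ → L,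
    (∀ k ≤ d + 1, ∑ i ∈ range (d + 1), c i * T κ z i (e k) = 0) → ∀ i ≤ d, c i = 0) →
  (∀ i j : ℕ, i < j → j ≤ d → ∀ (c : ℕ → L) (c' : L), c i = 0 →
    (∀ k ≤ d + 1, ∑ l ∈ range (d + 1), c l * T κ (κ i * κ j) l (e k) +
      c' * ((e k : L) * (κ j ^ (e k) - κ i ^ (e k))) = 0) → c' = 0 ∧ ∀ l ≤ d, c l = 0) →
  ∃ (P : L[X]) (D : Fin (d + 2) → L[X]), P.Monic ∧ P.natDegree = d * (d + 1) / 2 ∧
    (∀ k, Cf κ d e k = P * D k) ∧ ∀ z : L, ∃ k, (D k).eval z ≠ 0

/-- **C3** (80 lines). The coefficient of the last cofactor at `e 0 + .. + e d` is not `0`. PROOF.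
Up to sign `Cf (last)` is the determinant of the square matrix `row κ i (e k)`, `i, k ≤ d`
(expand along the first row `Pi.single (Fin.last) 1`). Each entry of column `k` has degree at most
`e k`, so by `Matrix.det_apply` and `Polynomial.coeff_mul_of_natDegree_le` (induction over the
product) the coefficient at `∑ e k` is the determinant of the matrix of the coefficients at `e k`,
which are `(κ i)⁻¹ ^ e k` for `e k > 0` and `2` for `e k = 0`. By the hypothesis `hLC` the rows of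
the matrix `(κ i)⁻¹ ^ e k` are independent, so the determinant is not `0` (the column `k = 0`
is multiplied by `2`, which is not `0`). -/
def S_C3 : Prop := ∀ (L : Type) [Field L] (κ : ℕ → L) (d : ℕ) (e : ℕ → ℕ), (2 : L) ≠ 0 →
  StrictMono e → e 0 = 0 → (∀ i, κ i ≠ 0) →
  (∀ c : ℕ → L, (∀ k ≤ d, ∑ i ∈ range (d + 1), c i * (κ i)⁻¹ ^ (e k) = 0) → ∀ i ≤ d, c i = 0) →
  (Cf κ d e (Fin.last (d + 1))).coeff (∑ k ∈ range (d + 1), e k) ≠ 0

/-- **C4** (50 lines, pure algebra). PROOF. From `W l (P D k) = W k (P D l)` and `P ≠ 0`: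
`W l D k = W k D l`. The ideal generated by the `D k` is everything (otherwise it is generated by a
polynomial which is not a unit, and a root of it is a common root), so `∑ u k D k = 1` and
`W last = ∑ u k D k W last = D last * ∑ u k W k`. The degree of `D last` is at least
`S - d (d+1) / 2`, so `W last = 0` by its degree, and then `W k D last = W last D k = 0`,
`D last ≠ 0`. -/
def S_C4 : Prop := ∀ (L : Type) [Field L] [IsAlgClosed L] (m S : ℕ) (P : L[X])
  (D F W : Fin (m + 1) → L[X]) (h : ℕ), P.Monic → P.natDegree = h → (∀ k, F k = P * D k) →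
  (∀ z : L, ∃ k, (D k).eval z ≠ 0) → (∀ k l, W l * F k = W k * F l) →
  (F (Fin.last m)).coeff S ≠ 0 → (∀ j, S ≤ j + h → (W (Fin.last m)).coeff j = 0) → ∀ k, W k = 0

/-- **PAD** (40 lines). PROOF. `L = PadicAlgCl q` (Mathlib; norm, nonarchimedean, algebraically
closed, extends the norm of `ℚ_[q]`). -/
def S_PAD : Prop := ∀ q : ℕ, q.Prime → ∃ (L : Type) (_ : NormedField L) (_ : IsUltrametricDist L)
  (_ : IsAlgClosed L) (_ : CharZero L), ‖(q : L)‖ < 1 ∧ ∀ m : ℕ, ¬ q ∣ m → ‖(m : L)‖ = 1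

/-- The nodes `q ^ (2 ^ i - 1)`. -/
noncomputable def nod (L : Type) [Field L] (q : ℕ) (i : ℕ) : L := (q : L) ^ (2 ^ i - 1)

/-- **DAT** (40 lines). PROOF. `num`, `two`: `q` is a prime larger than `2` and `e (d+1)`. `sep`:
`‖nod i * nod j‖ = ‖q‖ ^ (2^i + 2^j - 2)`, `0 < ‖q‖ < 1` (`q ≠ 0`), and
`2^i + 2^j = 2^k + 2^l` only if the unordered pairs agree. -/
def S_DAT : Prop := ∀ (L : Type) [NormedField L] [CharZero L] (q d : ℕ) (e : ℕ → ℕ), q.Prime →
  2 < q → e (d + 1) < q → ‖(q : L)‖ < 1 → (∀ m : ℕ, ¬ q ∣ m → ‖(m : L)‖ = 1) →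
  Dat (nod L q) d e

/-- **ALG** (the algebraic statement over `ℚ`; 60 lines from all the above; I write it). -/
def S_ALG : Prop := ∀ (q d : ℕ) (e : ℕ → ℕ) (W : Fin (d + 2) → ℚ[X]), Exps d e → q.Prime →
  2 < q → e (d + 1) < q → (∀ i : Fin (d + 1), ∑ k : Fin (d + 2), row (nod ℚ q) i (e k) * W k = 0) →
  (∀ j, ∑ k ∈ range (d + 1), e k ≤ j + d * (d + 1) / 2 → (W (Fin.last (d + 1))).coeff j = 0) →
  ∀ k, W k = 0

/-! ## Rigidity part -/

/-- **STR** (100 lines, from ALG). Stresses over `ℚ` vanish. PROOF. For `1 ≤ k ≤ d+1` put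
`W k = ∑_{j < n} w (k-1) j X^j` and `W 0 = - (1/2) ∑_{k≥1} (1 + X^(e k)) W k`. Row `0`
(`nod 0 = 1`): `2 W 0 + ∑ (1 + X^(e k)) W k = 0`. Row `i`, `1 ≤ i ≤ d`: subtract row `0`; the
coefficient of `X^j` in `∑_{k≥1} ((κ^(e k) - 1) + (κ⁻¹^(e k) - 1) X^(e k)) W k` is
`∑ w j (κ^(e k) - 1) + w (j - e k) (κ^(-e k) - 1)`, which is `κ^(-j)` times the hypothesis at `j`
(for `j ≥ n` all terms are `0`: `w (j - e k)` because `(j - e k) + e k = j ≥ n`). The coefficient
of `W (d+1)` at `j` is `0` if `n ≤ j + e (d+1)`, and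
`n = e 1 + .. + e (d+1) - d (d+1) / 2`, so ALG gives `W = 0`. -/
def S_STR : Prop := ∀ (q d n : ℕ) (e : ℕ → ℕ) (w : ℕ → ℕ → ℚ), Exps d e → q.Prime → 2 < q →
  e (d + 1) < q → n + d * (d + 1) / 2 = ∑ k ∈ range (d + 2), e k →
  (∀ k j, n ≤ j + e (k + 1) → w k j = 0) →
  (∀ j < n, ∀ i, 1 ≤ i → i ≤ d → ∑ k ∈ range (d + 1),
    (w k j * (nod ℚ q i ^ j - nod ℚ q i ^ (j + e (k + 1))) +
      (if e (k + 1) ≤ j then w k (j - e (k + 1)) *
        (nod ℚ q i ^ j - nod ℚ q i ^ (j - e (k + 1))) else 0)) = 0) →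
  ∀ k ≤ d, ∀ j, w k j = 0

/-- **RK** (120 lines, from STR). PROOF. Take a prime `q > 2, e (d+1)` and the placement
`p j i = (nod ℝ q (i+1)) ^ j`. Consider the family of rows `Pool.Agent.H789R5.row p j (j + e (k+1))`
of pairs `(k, j)`, `k ≤ d`, `j + e (k+1) < n`: it is linearly independent over `ℝ`. Indeed let
`∑ w (k,j) row = 0` with real `w`; apply a `ℚ`-linear map `f : ℝ → ℚ` with `f (w (k0,j0)) ≠ 0`: all
entries of the rows are rational, so `f ∘ w` satisfies the same equations over `ℚ`; the entry at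
`(j, i)` is the equation of STR; contradiction. So the rank of the rigidity matrix of `dG n d e` at
`p` is at least the number of these pairs, which is `∑ (n - e (k+1)) = d n - d (d+1) / 2`
(`n ≥ e (d+1)` since `e k ≥ k`). Then `rank_add_mo`, `MG.min`, `exists_mg`, `genRigid_iff`. -/
def S_RK : Prop := ∀ (d n : ℕ) (e : ℕ → ℕ), Exps d e → d ≤ n →
  n + d * (d + 1) / 2 = ∑ k ∈ range (d + 2), e k → GenRigid d (dG n d e)

/-- **EXT** (80 lines). One more vertex. PROOF. `dG n d e` is isomorphic to the graph induced by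
`dG (n+1) d e` on the vertices `0, .., n-1` (transport a placement); so with a generic placement `p`
(`exists_mg`, an `MG` is a `Gen`) `RigidOn (dG (n+1) d e) {v | v < n} p` (`Gen.genRigid_induce_iff`);
the last vertex is adjacent to the `d + 1` vertices `n - e (k+1)` (`e (d+1) ≤ n`), so
`H283R2.DR.IndepLocal.extend` (0-extension) and `rigidOn_univ_iff` give the claim. -/
def S_EXT : Prop := ∀ (d n : ℕ) (e : ℕ → ℕ), Exps d e → e (d + 1) ≤ n →
  GenRigid d (dG n d e) → GenRigid d (dG (n + 1) d e)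

/-- **NEC** (80 lines). Counting. PROOF. The edges are at most `∑_{k ≤ d} (n - e (k+1))` many, so the
rank of every rigidity matrix is at most this number, and `rank_add_mo`, `genRigid_iff`
(`d ≤ n` since `e (d+1) ≥ d+1`) give `d n ≤ d (d+1)/2 + (d+1) n - ∑ e (k+1)`. -/
def S_NEC : Prop := ∀ (d n : ℕ) (e : ℕ → ℕ), Exps d e → e (d + 1) ≤ n →
  GenRigid d (dG n d e) → ∑ k ∈ range (d + 2), e k ≤ n + d * (d + 1) / 2

end Pool.Agent.Run7.h188.FW
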